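import Mathlib

set_option autoImplicit false

/-!
# MP_fd91d0_co: `dim(ℤ_17, 15) = 4`, whereas `⌊log₂ 15⌋ = 3`
-/

namespace Pool.Agent.Results.MP_fd91d0_co.Counterexample

/-- A finite set `B` of elements of an abelian group is dissociated: there is no relation
`∑ ε b • b = 0` with all `ε b ∈ {-1, 0, 1}` other than the one with all `ε b = 0` on `B`. -/
def Dissociated {G : Type} [AddCommGroup G] (B : Finset G) : Prop :=
  ∀ ε : G → ℤ, (∀ b ∈ B, ε b = -1 ∨ ε b = 0 ∨ ε b = 1) → ∑ b ∈ B, ε b • b = 0 →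
    ∀ b ∈ B, ε b = 0

/-- The dissociativity dimension of `A`: the largest size of a dissociated subset of `A`. -/
noncomputable def dim {G : Type} [AddCommGroup G] (A : Finset G) : ℕ :=
  sSup {k : ℕ | ∃ B : Finset G, B ⊆ A ∧ B.card = k ∧ Dissociated B}

/-- `dim(G,m)`: the least dissociativity dimension of an `m`-element subset of `G`. -/
noncomputable def dimMin (G : Type) [AddCommGroup G] (m : ℕ) : ℕ :=
  sInf {d : ℕ | ∃ A : Finset G, A.card = m ∧ dim A = d}

/-- The elements `± c · 2^j`, with `c = 1` or `c = 3`. -/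
def elt (c : Fin 2) (s : Fin 16) (j : Fin 4) : ZMod 17 :=
  (if (s : ℕ) / 2 ^ (j : ℕ) % 2 = 1 then 1 else -1) * (if c = 0 then 1 else 3) * 2 ^ (j : ℕ)

set_option maxRecDepth 100000 in
theorem avoid : ∀ x y : ZMod 17, ∃ c : Fin 2, ∃ s : Fin 16,
    ∀ j : Fin 4, elt c s j ≠ x ∧ elt c s j ≠ y := by
  decide

set_option maxRecDepth 100000 in
theorem elt_inj : ∀ c : Fin 2, ∀ s : Fin 16, ∀ i j : Fin 4, elt c s i = elt c s j → i = j := by
  decide

set_option maxRecDepth 100000 in
theorem elt_diss : ∀ c : Fin 2, ∀ s : Fin 16, ∀ e0 e1 e2 e3 : Fin 3,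
    (((e0 : ℕ) : ZMod 17) - 1) * elt c s 0 + (((e1 : ℕ) : ZMod 17) - 1) * elt c s 1 +
      (((e2 : ℕ) : ZMod 17) - 1) * elt c s 2 + (((e3 : ℕ) : ZMod 17) - 1) * elt c s 3 = 0 →
    e0 = 1 ∧ e1 = 1 ∧ e2 = 1 ∧ e3 = 1 := by
  decide

/-- The dissociated set of the elements `elt c s j`. -/
def B (c : Fin 2) (s : Fin 16) : Finset (ZMod 17) := Finset.univ.image (elt c s)

theorem card_B (c : Fin 2) (s : Fin 16) : (B c s).card = 4 := by
  rw [B, Finset.card_image_of_injective _ (fun i j h => elt_inj c s i j h)]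
  simp

theorem exists_fin3 {z : ℤ} (hz : z = -1 ∨ z = 0 ∨ z = 1) : ∃ e : Fin 3, ((e : ℕ) : ℤ) - 1 = z := by
  rcases hz with h | h | h
  · exact ⟨0, by simp [h]⟩
  · exact ⟨1, by simp [h]⟩
  · exact ⟨2, by simp [h]⟩

theorem diss_B (c : Fin 2) (s : Fin 16) : Dissociated (B c s) := by
  intro ε hε hsum
  have hmem : ∀ j, elt c s j ∈ B c s := fun j => Finset.mem_image_of_mem _ (Finset.mem_univ j)
  rw [B, Finset.sum_image (fun i _ j _ h => elt_inj c s i j h)] at hsum
  obtain ⟨e0, h0⟩ := exists_fin3 (hε _ (hmem 0))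
  obtain ⟨e1, h1⟩ := exists_fin3 (hε _ (hmem 1))
  obtain ⟨e2, h2⟩ := exists_fin3 (hε _ (hmem 2))
  obtain ⟨e3, h3⟩ := exists_fin3 (hε _ (hmem 3))
  rw [Fin.sum_univ_four, ← h0, ← h1, ← h2, ← h3] at hsum
  have hkey := elt_diss c s e0 e1 e2 e3 (by
    rw [← hsum]
    simp only [zsmul_eq_mul]
    push_cast
    ring)
  obtain ⟨k0, k1, k2, k3⟩ := hkey
  subst k0 k1 k2 k3
  intro b hb
  obtain ⟨j, -, rfl⟩ := Finset.mem_image.1 hb
  fin_cases j
  · exact h0.symm.trans (by simp)
  · exact h1.symm.trans (by simp)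
  · exact h2.symm.trans (by simp)
  · exact h3.symm.trans (by simp)

/-- A dissociated subset of `ℤ_17` has at most four elements. -/
theorem card_le_four {D : Finset (ZMod 17)} (hD : Dissociated D) : D.card ≤ 4 := by
  classical
  have hinj : Set.InjOn (fun S : Finset (ZMod 17) => ∑ x ∈ S, x) (D.powerset : Set (Finset (ZMod 17))) := by
    intro S hS T hT hST
    simp only at hST
    have hS' : S ⊆ D := by simpa using hS
    have hT' : T ⊆ D := by simpa using hT
    have := hD (fun x => (if x ∈ S then 1 else 0) - (if x ∈ T then 1 else 0)) (by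
      intro b _
      by_cases h1 : b ∈ S <;> by_cases h2 : b ∈ T <;> simp [h1, h2]) (by
      have e1 : ∀ x : ZMod 17, ((if x ∈ S then (1 : ℤ) else 0) - (if x ∈ T then 1 else 0)) • x
          = (if x ∈ S then x else 0) - (if x ∈ T then x else 0) := by
        intro x
        by_cases h1 : x ∈ S <;> by_cases h2 : x ∈ T <;> simp [h1, h2]
      rw [Finset.sum_congr rfl (fun x _ => e1 x), Finset.sum_sub_distrib, Finset.sum_ite_mem,
        Finset.sum_ite_mem, Finset.inter_eq_right.2 hS', Finset.inter_eq_right.2 hT', hST, sub_self])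
    ext x
    constructor
    · intro hx
      have h3 := this x (hS' hx)
      by_contra hxT
      simp [hx, hxT] at h3
    · intro hx
      have h3 := this x (hT' hx)
      by_contra hxS
      simp [hx, hxS] at h3
  have h1 : (D.powerset.image (fun S : Finset (ZMod 17) => ∑ x ∈ S, x)).card = 2 ^ D.card := by
    rw [Finset.card_image_of_injOn hinj, Finset.card_powerset]
  have h2 : 2 ^ D.card ≤ 17 := by
    rw [← h1]
    have := Finset.card_le_univ (D.powerset.image (fun S : Finset (ZMod 17) => ∑ x ∈ S, x))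
    rwa [ZMod.card] at this
  by_contra h
  have : 2 ^ 5 ≤ 2 ^ D.card := Nat.pow_le_pow_right (by norm_num) (by omega)
  omega

theorem dim_eq {A : Finset (ZMod 17)} (hA : A.card = 15) : dim A = 4 := by
  classical
  have hc : (Finset.univ \ A).card = 2 := by
    rw [Finset.card_sdiff_of_subset (Finset.subset_univ A), hA, Finset.card_univ, ZMod.card]
  obtain ⟨x, y, -, hxy⟩ := Finset.card_eq_two.1 hc
  obtain ⟨c, s, hcs⟩ := avoid x y
  have hsub : B c s ⊆ A := by
    intro b hb
    obtain ⟨j, -, rfl⟩ := Finset.mem_image.1 hb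
    by_contra hbA
    have : elt c s j ∈ Finset.univ \ A := by simp [hbA]
    rw [hxy] at this
    simp only [Finset.mem_insert, Finset.mem_singleton] at this
    have h2 := hcs j
    tauto
  have hbdd : BddAbove {k : ℕ | ∃ B : Finset (ZMod 17), B ⊆ A ∧ B.card = k ∧ Dissociated B} := by
    refine ⟨4, ?_⟩
    rintro k ⟨D, -, rfl, hD⟩
    exact card_le_four hD
  have hmem : 4 ∈ {k : ℕ | ∃ B : Finset (ZMod 17), B ⊆ A ∧ B.card = k ∧ Dissociated B} :=
    ⟨B c s, hsub, card_B c s, diss_B c s⟩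
  apply le_antisymm
  · apply csSup_le ⟨4, hmem⟩
    rintro k ⟨D, -, rfl, hD⟩
    exact card_le_four hD
  · exact le_csSup hbdd hmem

/-- Every `15`-element subset of `ℤ_17` has dissociativity dimension `4`. -/
theorem dimMin_eq : dimMin (ZMod 17) 15 = 4 := by
  have : {d : ℕ | ∃ A : Finset (ZMod 17), A.card = 15 ∧ dim A = d} = {4} := by
    ext d
    simp only [Set.mem_ofPred_eq, Set.mem_singleton_iff]
    constructor
    · rintro ⟨A, hA, rfl⟩
      exact dim_eq hA
    · rintro rfl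
      obtain ⟨A, -, hA⟩ := Finset.exists_subset_card_eq
        (s := (Finset.univ : Finset (ZMod 17))) (n := 15) (by rw [Finset.card_univ, ZMod.card]; norm_num)
      exact ⟨A, hA, dim_eq hA⟩
  rw [dimMin, this, csInf_singleton]

/-- **Theorem.** The conjecture `dim(ℤ_n, m) = ⌊log₂ m⌋` for `1 ≤ m ≤ n` is false:
`dim(ℤ_17, 15) = 4`, whereas `⌊log₂ 15⌋ = 3`. -/
theorem result : dimMin (ZMod 17) 15 = 4 ∧ Nat.log 2 15 = 3 ∧
    ¬ ∀ n m : ℕ, 1 ≤ m → m ≤ n → dimMin (ZMod n) m = Nat.log 2 m := by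
  have h15 : Nat.log 2 15 = 3 := by
    rw [Nat.log_eq_iff] <;> norm_num
  refine ⟨dimMin_eq, h15, ?_⟩
  intro h
  have := h 17 15 (by norm_num) (by norm_num)
  rw [dimMin_eq, h15] at this
  omega

end Pool.Agent.Results.MP_fd91d0_co.Counterexample
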